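import Pool.Agent.L5helper72.BD.Defs

/-!
# Few large least prime factors force few good positions
-/

set_option autoImplicit false

namespace Pool.Agent.L5helper34.BD

open Finset Filter Topology Pool.Agent.L5helper72.BD

theorem DET_holds : St_DET := by
  intro A C θ z J F m n hA hθ hzF hF hBig
  classical
  set P := primorial z with hP
  have hP1 : 1 ≤ P := primorial_pos z
  set t := n / P with ht
  have hn : n < P * (t + 1) := by
    have h1 := Nat.lt_mul_div_succ n hP1
    exact h1
  set S := (Ioc z F).filter Nat.Prime with hS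
  -- the value of `k`
  let kk : ℕ → ℕ := fun j => P * (t + j + 1) + 1 - n
  have hlt : ∀ j, n < P * (t + j + 1) := fun j =>
    hn.trans_le (Nat.mul_le_mul_left P (by omega))
  have hnk : ∀ j, n + kk j = P * (t + j + 1) + 1 := by
    intro j
    have := hlt j
    simp only [kk]
    omega
  have hPt : P * t ≤ n := Nat.mul_div_le n P
  have hinj : Function.Injective kk := by
    intro i j hij
    have h1 := hnk i
    have h2 := hnk j
    rw [hij] at h1
    have h3 : P * (t + i + 1) = P * (t + j + 1) := by omega
    have h4 := Nat.eq_of_mul_eq_mul_left hP1 h3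
    omega
  have hmem : ∀ j ∈ {j ∈ range J | Good P S (t + j)}, kk j ∈ Big A C θ n := by
    intro j hj
    rw [mem_filter, mem_range] at hj
    obtain ⟨hjJ, hg⟩ := hj
    have hk2 : 2 ≤ kk j := by
      have := hlt j
      simp only [kk]
      omega
    have hkP : kk j ≤ P * (J + 1) := by
      have h1 := hnk j
      have h2 : P * (t + j + 1) = P * t + P * (j + 1) := by ring
      have h3 : P * (j + 1) ≤ P * J := Nat.mul_le_mul_left P (by omega)
      have h4 : P * (J + 1) = P * J + P := by ring
      omega
    refine ⟨by omega, ?_⟩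
    have hne : n + kk j ≠ 1 := by omega
    have hqp := Nat.minFac_prime hne
    have hqd := Nat.minFac_dvd (n + kk j)
    set q := (n + kk j).minFac with hq
    rw [hnk j] at hqd
    have hFq : F < q := by
      by_contra hcon
      push Not at hcon
      rcases le_or_gt q z with hqz | hqz
      · have h1 : q ∣ P := (Nat.Prime.dvd_primorial_iff hqp).2 hqz
        have h2 : q ∣ 1 := (Nat.dvd_add_right (h1.mul_right _)).1 hqd
        exact hqp.one_lt.ne' (Nat.dvd_one.1 h2)
      · exact hg q (mem_filter.2 ⟨mem_Ioc.2 ⟨hqz, hcon⟩, hqp⟩) hqd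
    have h5 : ((kk j : ℕ) : ℝ) ^ θ ≤ ((P * (J + 1) : ℕ) : ℝ) ^ θ :=
      Real.rpow_le_rpow (Nat.cast_nonneg _) (by exact_mod_cast hkP) hθ.le
    have h6 : Real.exp (A * ((kk j : ℕ) : ℝ) ^ θ) ≤ Real.exp (A * ((P * (J + 1) : ℕ) : ℝ) ^ θ) :=
      Real.exp_le_exp.2 (mul_le_mul_of_nonneg_left h5 hA.le)
    have h7 : (F : ℝ) < q := by exact_mod_cast hFq
    linarith
  have h8 : (({j ∈ range J | Good P S (t + j)}.image kk : Finset ℕ) : Set ℕ) ⊆ Big A C θ n := by
    intro x hx
    rw [mem_coe, mem_image] at hx
    obtain ⟨j, hj, rfl⟩ := hx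
    exact hmem j hj
  have h9 := Set.encard_le_encard h8
  rw [Set.encard_coe_eq_coe_finsetCard, card_image_of_injective _ hinj] at h9
  have h10 := h9.trans hBig
  unfold Y
  exact_mod_cast h10

end Pool.Agent.L5helper34.BD
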